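import Mathlib
import Pool.Agent.N178.HX.Parts
import Pool.Agent.N994.FH.J

/-!
# The classes (a), (b) of abelian varieties
-/

namespace Pool.Agent.Z15.MU

open Module NumberField Pool.Agent.Y90 Pool.Agent.R915
open Pool.Agent.H204R3.CM (IsCMType)
open Pool.Agent.W547.KB (CMPair CMAV single)
open Pool.Agent.N830.HC (av)
open Pool.Agent.N994.PG (SmallPeriods GenericPeriods)

/-- Classes of simple abelian varieties: dimension at most three; or the endomorphism algebra is
an imaginary quadratic field of signature `(p, q)` with `p, q ≤ 3` (and trivial discriminant for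
`(3, 3)`); or Albert type I or II of relative dimension at most three; or dimension five and
endomorphism algebra `ℚ`; or Albert type I or II, any dimension, with the largest possible Hodge
group. -/
def Typ (Y : AV) : Prop :=
  finrank ℚ Y.H ≤ 6 ∨ QuadMult Y ∨ RealMult Y ∨ FiveDim Y ∨ FullHodge Y

/-- Each simple factor `Y` of `X` is a factor of an abelian variety with one of the CM types `T k`; or
it has small or generic periods; or it has no complex multiplication, belongs to one of the classes in
`Typ`, and if `ℚ(√-d)` acts on `Y` with two different multiplicities then `Y` is not a fourfold and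
the elliptic curve `E` with complex multiplication by this field is a factor of an abelian variety
with one of the CM types `T k`. -/
def HasFactorsIn {K : Type} (T : K → CMPair) (X : AV) : Prop :=
  ∀ Y, IsFactor Y X → (∃ k, IsFactor Y (av (single (T k)))) ∨ SmallPeriods Y ∨ GenericPeriods Y ∨
    (¬ HasCMult Y ∧ Typ Y ∧ ∀ d : ℚ, Unbalanced Y d → finrank ℚ Y.H ≠ 8 ∧
      ∃ k E, IsFactor E (av (single (T k))) ∧ finrank ℚ E.H = 2 ∧ Unbalanced E d)

/-- All CM types of the CM fields in the block `B` are conjugate, simultaneously: for each family of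
CM types `Ψ k` of the CM fields there is an automorphism of `ℂ` which takes `Ψ k` to the CM type
`T k`, for all `k` in `B`. -/
def AllConjugate {K : Type} (T : K → CMPair) (B : Set K) : Prop :=
  ∀ Ψ : ∀ k, Set ((T k).E →+* ℂ), (∀ k, IsCMType (Ψ k)) →
    ∃ σ : ℂ ≃+* ℂ, ∀ k ∈ B, ∀ φ, φ ∈ Ψ k ↔ (σ : ℂ →+* ℂ).comp φ ∈ (T k).Φ

/-- The CM fields of the block `B` are subfields of the Galois CM field `L`, and all CM types of `L`
occur. -/
def AllTypes {K : Type} (T : K → CMPair) (B : Set K) (L : Type) [Field L] [NumberField L]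
    [IsCMField L] : Prop :=
  IsGalois ℚ L ∧ (∀ k ∈ B, Nonempty ((T k).E →+* L)) ∧
    ∀ Φ : Set (L →+* ℂ), IsCMType Φ → ∃ k ∈ B, ∃ f : L →+* (T k).E, Function.Surjective f ∧
      ∀ ψ, ψ ∈ (T k).Φ ↔ ψ.comp f ∈ Φ

/-- The total dimension of the block is at most three. -/
def DimAtMostThree {K : Type} (T : K → CMPair) (B : Set K) : Prop :=
  ∃ F : Finset K, (∀ k, k ∈ F ↔ k ∈ B) ∧ ∑ k ∈ F, finrank ℚ (T k).E ≤ 6

/-- The blocks `{k | b k = j}` are independent: automorphisms of `ℂ` can be prescribed separately on
the complex embeddings of the CM fields of the different blocks. (The composita of the Galois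
closures of the fields of the different blocks are linearly disjoint over `ℚ`.) -/
def IsIndependent {K J : Type} (T : K → CMPair) (b : K → J) : Prop :=
  ∀ τ : J → (ℂ ≃+* ℂ), ∃ σ : ℂ ≃+* ℂ, ∀ k (φ : (T k).E →+* ℂ),
    (σ : ℂ →+* ℂ).comp φ = (τ (b k) : ℂ →+* ℂ).comp φ

/-- The condition on the block `B`. -/
def IsGoodBlock {K : Type} (T : K → CMPair) (B : Set K) : Prop :=
  AllConjugate T B ∨ (∃ (L : Type) (_ : Field L) (_ : NumberField L) (_ : IsCMField L),
    AllTypes T B L ∧ finrank ℚ L ≤ 6) ∨ DimAtMostThree T B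

/-- The classes (a) and (b) of abelian varieties. -/
def IsGood (X : AV) : Prop :=
  (∃ A : AV, finrank ℚ A.H ≤ 6 ∧
    ∀ Y, IsFactor Y X → IsFactor Y A ∨ SmallPeriods Y ∨ GenericPeriods Y) ∨
    ∃ (K J : Type) (_ : Fintype K) (T : K → CMPair) (b : K → J), IsIndependent T b ∧
      (∀ j, IsGoodBlock T {k | b k = j}) ∧ HasFactorsIn T X

end Pool.Agent.Z15.MU
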