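import Mathlib
import Pool.Agent.Z15.MU.Defs
import Pool.Agent.N178.MU.MB

/-!
# Murre's conjectures (B) and (D) for the classes (a), (b)
-/

namespace Pool.Agent.Z15.MU

open Module NumberField Pool.Agent.Y90 Pool.Agent.R915
open Pool.Agent.H204R3.CM (IsCMType)
open Pool.Agent.W547.KB (CMPair CMAV single)
open Pool.Agent.N830.HC (av)
open Pool.Agent.N994.PG (SmallPeriods GenericPeriods)
open Pool.Agent.W547.LN (SameType)
open Pool.Agent.N178.BL (ChowTheory)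
open Pool.Agent.N178.MU (Projectors IsChowKunneth HodgeZero F)

theorem good {K : Type} [Fintype K] {T : K → CMPair} {B : Set K} (h : IsGoodBlock T B) :
    Pool.Agent.N178.HX.BlkOK T B := by
  rcases h with h | ⟨L, i1, i2, i3, h, h4⟩ | h
  · exact Or.inl h
  · obtain ⟨h1, h2, h3⟩ := h
    refine Or.inr (Or.inl ⟨L, i1, i2, i3, ⟨h1, h2, fun Φ hΦ => ?_⟩, h4⟩)
    obtain ⟨k, hk, f, hf, h5⟩ := h3 Φ hΦ
    refine ⟨k, hk, RingEquiv.ofBijective f ⟨f.injective, hf⟩, fun ψ => ?_⟩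
    exact h5 ψ
  · exact Or.inr (Or.inr h)

theorem ghc {C : ChowTheory} {X : AV} (hX : IsGood X) : Pool.Agent.N178.HX.GHC C.alg X := by
  rcases hX with ⟨A, hA, hX⟩ | ⟨K, J, _, T, b, hb, hj, hX⟩
  · obtain ⟨K, _, T, hT, h⟩ := Pool.Agent.N178.HX.t_POW A hA
    refine Pool.Agent.N178.HX.uncond' Pool.Agent.N178.HX.t_MAINT Pool.Agent.N178.HX.t_COV T
      (fun _ : K => ()) (fun τ => ⟨τ (), fun _ _ => rfl⟩)
      (fun j => Or.inr (Or.inr ⟨Finset.univ, fun k => ⟨fun _ => rfl, fun _ => Finset.mem_univ k⟩, hT⟩))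
      C.alg X fun Y hY => ?_
    rcases hX Y hY with h1 | h1
    · exact h A (fun _ h2 => h2) Y h1
    · obtain ⟨h2, h3, h4⟩ := Pool.Agent.N994.FH.typ_of_periods hY.1 h1
      exact Or.inr ⟨h2, by tauto, fun d hd => absurd hd (h4 d)⟩
  · refine Pool.Agent.N178.HX.uncond' Pool.Agent.N178.HX.t_MAINT Pool.Agent.N178.HX.t_COV T b hb
      (fun j => good (hj j)) C.alg X fun Y hY => ?_
    rcases hX Y hY with h1 | h1 | h1 | h1
    · exact Or.inl h1
    · obtain ⟨h2, h3, h4⟩ := Pool.Agent.N994.FH.typ_of_periods hY.1 (Or.inl h1)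
      exact Or.inr ⟨h2, by tauto, fun d hd => absurd hd (h4 d)⟩
    · obtain ⟨h2, h3, h4⟩ := Pool.Agent.N994.FH.typ_of_periods hY.1 (Or.inr h1)
      exact Or.inr ⟨h2, by tauto, fun d hd => absurd hd (h4 d)⟩
    · exact Or.inr h1

theorem main_D (C : ChowTheory) (K : Projectors C) (X : AV) (hX : IsGood X) (p : C.Co X X)
    (P : ℕ → C.Co X X) (hP : IsChowKunneth p P) (i : ℤ)
    (hH : ∀ s t : ℕ, (s : ℤ) + t ≤ 2 * i → i + 2 ≤ s ∨ i + 2 ≤ t → HodgeZero p s t)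
    (O : AV) (hO : finrank ℚ O.H = 0) (z : C.Co O X) (hz : C.IsDeg i z) (hpz : C.o p z = z) :
    F p P i 1 z ↔ ∀ ω, C.pb z ω = 0 := by
  constructor
  · rintro ⟨-, -, h⟩ ω
    obtain ⟨N, hN⟩ := Pool.Agent.N178.MU.sum_part hP hpz
    rw [hN, Pool.Agent.N178.MU.pb_sum]
    refine Finset.sum_eq_zero fun m _ => ?_
    by_cases hm : (m : ℤ) = 2 * i
    · rw [h m (by push_cast; omega), Pool.Agent.N178.BL.zero_pb]
    · exact Pool.Agent.N178.MU.hom_part K hO hP hm hz ω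
  · intro h0
    refine ⟨hz, hpz, fun m hm => ?_⟩
    refine Pool.Agent.N178.MU.vanish K (ghc hX) hO hP (by push_cast at hm; omega)
      (fun s t hst h1 => hH s t ?_ h1) hz fun _ => h0
    push_cast at hm
    omega

theorem main_B (C : ChowTheory) (K : Projectors C) (X : AV) (hX : IsGood X) (p : C.Co X X)
    (d : ℕ) (hd : ∀ s t : ℕ, d < s ∨ d < t → HodgeZero p s t)
    (P : ℕ → C.Co X X) (hP : IsChowKunneth p P) (O : AV) (hO : finrank ℚ O.H = 0) (i : ℤ) (m : ℕ)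
    (z : C.Co O X) (hz : C.IsDeg i z) :
    (d + i < m → C.o (P m) z = 0) ∧
    (m < 2 * i → (∀ s t : ℕ, s + t = m → i + 2 ≤ s ∨ i + 2 ≤ t → HodgeZero p s t) →
      C.o (P m) z = 0) :=
  ⟨fun hm => Pool.Agent.N178.MU.murreB1 K (ghc hX) hO hP hd hz hm,
    fun hm hH => Pool.Agent.N178.MU.vanish K (ghc hX) hO hP hm.le hH hz fun h => by omega⟩

end Pool.Agent.Z15.MU
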